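import Mathlib

set_option autoImplicit false

open Set Metric Filter Topology

namespace Pool.Agent.H903Z.SS

section sel
variable {G : Type*} [MetricSpace G] {X : Type*} (φ : G → X) (u : ℕ → G)

/-- nested open sets coded by lists -/
def W : List ℕ → Set G
  | [] => univ
  | n :: l => W l ∩ ball (u n) ((1 / 2 : ℝ) ^ l.length)

lemma isOpen_W : ∀ l, IsOpen (W u l)
  | [] => isOpen_univ
  | _ :: l => (isOpen_W l).inter isOpen_ball

/-- least choices -/
def Good : List ℕ → Set G
  | [] => univ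
  | n :: l => Good l ∩ φ ⁻¹' (φ '' W u (n :: l)) ∩ ⋂ m < n, (φ ⁻¹' (φ '' W u (m :: l)))ᶜ

lemma good_sat : ∀ (l : List ℕ) {g h : G}, φ g = φ h → g ∈ Good φ u l → h ∈ Good φ u l
  | [], _, _, _, _ => mem_univ _
  | n :: l, g, h, e, ⟨⟨h1, h2⟩, h3⟩ => by
    refine ⟨⟨good_sat l e h1, ?_⟩, ?_⟩
    · rw [mem_preimage, ← e]; exact h2
    · simp only [mem_iInter, mem_compl_iff, mem_preimage] at h3 ⊢
      rw [← e]; exact h3

lemma good_unique : ∀ (l l' : List ℕ) {g : G}, l.length = l'.length → g ∈ Good φ u l →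
    g ∈ Good φ u l' → l = l'
  | [], [], _, _, _, _ => rfl
  | [], _ :: _, _, h, _, _ => by simp at h
  | _ :: _, [], _, h, _, _ => by simp at h
  | n :: l, n' :: l', g, h, ⟨⟨h1, h2⟩, h3⟩, ⟨⟨h1', h2'⟩, h3'⟩ => by
    have hl : l = l' := good_unique l l' (by simpa using h) h1 h1'
    subst hl
    simp only [mem_iInter, mem_compl_iff] at h3 h3'
    rcases lt_trichotomy n n' with hn | hn | hn
    · exact absurd h2 (h3' n hn)
    · rw [hn]
    · exact absurd h2' (h3 n' hn)

lemma good_step (hu : DenseRange u) (l : List ℕ) {g : G} (h1 : g ∈ Good φ u l)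
    (h2 : g ∈ φ ⁻¹' (φ '' W u l)) : ∃ n, g ∈ Good φ u (n :: l) := by
  classical
  have hex : ∃ n, g ∈ φ ⁻¹' (φ '' W u (n :: l)) := by
    obtain ⟨h, hh, e⟩ := h2
    obtain ⟨n, hn⟩ := hu.exists_dist_lt h (show (0 : ℝ) < (1 / 2 : ℝ) ^ l.length by positivity)
    exact ⟨n, h, ⟨hh, hn⟩, e⟩
  refine ⟨Nat.find hex, ⟨h1, Nat.find_spec hex⟩, ?_⟩
  simp only [mem_iInter, mem_compl_iff]
  exact fun m hm => Nat.find_min hex hm

lemma good_meas [MeasurableSpace G] [BorelSpace G]
    (hsat : ∀ U : Set G, IsOpen U → IsOpen (φ ⁻¹' (φ '' U))) :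
    ∀ l, MeasurableSet (Good φ u l)
  | [] => MeasurableSet.univ
  | n :: l => by
    refine ((good_meas hsat l).inter (hsat _ (isOpen_W u _)).measurableSet).inter ?_
    exact MeasurableSet.iInter fun m => MeasurableSet.iInter fun _ =>
      (hsat _ (isOpen_W u _)).measurableSet.compl

/-- the transversal -/
def T : Set G := ⋂ k : ℕ, ⋃ n : ℕ, ⋃ l : List ℕ, ⋃ _ : l.length = k,
  Good φ u (n :: l) ∩ closedBall (u n) ((1 / 2 : ℝ) ^ k)

lemma T_meas [MeasurableSpace G] [BorelSpace G]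
    (hsat : ∀ U : Set G, IsOpen U → IsOpen (φ ⁻¹' (φ '' U))) : MeasurableSet (T φ u) :=
  MeasurableSet.iInter fun _ => MeasurableSet.iUnion fun _ => MeasurableSet.iUnion fun _ =>
    MeasurableSet.iUnion fun _ => (good_meas φ u hsat _).inter isClosed_closedBall.measurableSet

lemma T_inj : InjOn φ (T φ u) := by
  intro g hg h hh e
  simp only [T, mem_iInter, mem_iUnion] at hg hh
  have key : ∀ k : ℕ, dist g h ≤ 2 * (1 / 2 : ℝ) ^ k := by
    intro k
    obtain ⟨n, l, hl, h1, h2⟩ := hg k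
    obtain ⟨n', l', hl', h1', h2'⟩ := hh k
    have := good_unique φ u (n :: l) (n' :: l') (by simp [hl, hl']) (good_sat φ u _ e h1) h1'
    obtain ⟨rfl, rfl⟩ := List.cons.inj this
    have := dist_triangle_right g h (u n)
    rw [mem_closedBall] at h2 h2'
    linarith
  have hlim : Tendsto (fun k : ℕ => 2 * (1 / 2 : ℝ) ^ k) atTop (𝓝 (2 * 0)) :=
    (tendsto_pow_atTop_nhds_zero_of_lt_one (by norm_num) (by norm_num)).const_mul 2
  have := ge_of_tendsto' hlim key
  exact dist_le_zero.1 (by simpa using this)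

lemma T_surj [CompleteSpace G] (hu : DenseRange u) (hcl : ∀ g, IsClosed (φ ⁻¹' {φ g})) (g : G) :
    ∃ t ∈ T φ u, φ t = φ g := by
  have hstep : ∀ l : {l : List ℕ // g ∈ Good φ u l ∧ g ∈ φ ⁻¹' (φ '' W u l)},
      ∃ n, g ∈ Good φ u (n :: l.1) ∧ g ∈ φ ⁻¹' (φ '' W u (n :: l.1)) := by
    intro l
    obtain ⟨n, hn⟩ := good_step φ u hu l.1 l.2.1 l.2.2
    exact ⟨n, hn, hn.1.2⟩
  choose nx hnx using hstep
  let s : ℕ → {l : List ℕ // g ∈ Good φ u l ∧ g ∈ φ ⁻¹' (φ '' W u l)} := fun k =>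
    Nat.rec ⟨[], mem_univ _, g, mem_univ _, rfl⟩ (fun _ l => ⟨nx l :: l.1, hnx l⟩) k
  have hs : ∀ k, (s (k + 1)).1 = nx (s k) :: (s k).1 := fun k => rfl
  have hlen : ∀ k, (s k).1.length = k := by
    intro k
    induction k with
    | zero => rfl
    | succ k ih => rw [hs, List.length_cons, ih]
  have hanti : Antitone fun k => W u (s k).1 := by
    refine antitone_nat_of_succ_le fun k => ?_
    rw [hs]
    exact inter_subset_left
  have hx : ∀ k, ∃ x ∈ W u (s k).1, φ x = φ g := fun k => (s k).2.2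
  choose x hxW hxφ using hx
  have hball : ∀ k m, k + 1 ≤ m → x m ∈ ball (u (nx (s k))) ((1 / 2 : ℝ) ^ k) := by
    intro k m hkm
    have h1 : x m ∈ W u (s (k + 1)).1 := hanti hkm (hxW m)
    rw [hs] at h1
    have := h1.2
    rwa [hlen] at this
  have hcauchy : CauchySeq x := by
    rw [Metric.cauchySeq_iff']
    intro ε hε
    obtain ⟨k, hk⟩ := exists_pow_lt_of_lt_one (half_pos hε) (show (1 / 2 : ℝ) < 1 by norm_num)
    refine ⟨k + 1, fun m hm => ?_⟩
    have h1 := hball k m hm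
    have h2 := hball k (k + 1) le_rfl
    rw [mem_ball] at h1 h2
    have := dist_triangle_right (x m) (x (k + 1)) (u (nx (s k)))
    linarith
  obtain ⟨t, ht⟩ := cauchySeq_tendsto_of_complete hcauchy
  have hφt : φ t = φ g :=
    (hcl g).mem_of_tendsto ht (Eventually.of_forall fun k => hxφ k)
  refine ⟨t, ?_, hφt⟩
  simp only [T, mem_iInter, mem_iUnion]
  intro k
  refine ⟨nx (s k), (s k).1, hlen k, good_sat φ u _ hφt.symm (hnx (s k)).1, ?_⟩
  refine isClosed_closedBall.mem_of_tendsto ht ?_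
  filter_upwards [eventually_ge_atTop (k + 1)] with m hm
  exact ball_subset_closedBall (hball k m hm)

end sel

/-- A continuous image of a Polish space is Borel when saturations of open sets are open. -/
theorem measurableSet_range {G : Type*} [TopologicalSpace G] [PolishSpace G]
    {X : Type*} [TopologicalSpace X] [T2Space X] [MeasurableSpace X] [OpensMeasurableSpace X]
    (φ : G → X) (hφ : Continuous φ)
    (hsat : ∀ U : Set G, IsOpen U → IsOpen (φ ⁻¹' (φ '' U))) : MeasurableSet (range φ) := by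
  rcases isEmpty_or_nonempty G with hG | hG
  · rw [range_eq_empty]; exact MeasurableSet.empty
  letI := TopologicalSpace.upgradeIsCompletelyMetrizable G
  borelize G
  obtain ⟨u, hu⟩ := TopologicalSpace.exists_dense_seq G
  have h1 : range φ = φ '' T φ u := by
    apply Subset.antisymm
    · rintro _ ⟨g, rfl⟩
      exact T_surj φ u hu (fun g => isClosed_singleton.preimage hφ) g
    · exact image_subset_range _ _
  rw [h1]
  exact (T_meas φ u hsat).image_of_continuousOn_injOn hφ.continuousOn (T_inj φ u)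

end Pool.Agent.H903Z.SS
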