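import Mathlib

set_option autoImplicit false

open Set Topology
open scoped Manifold ContDiff

namespace Pool.Agent.H903Z.SS

variable (n : ℕ) (M : Type) [TopologicalSpace M] [ChartedSpace (EuclideanSpace ℝ (Fin n)) M]

/-- The `C^r` diffeomorphisms of `M`. -/
abbrev Diff (r : WithTop ℕ∞) : Type := Diffeomorph (𝓡 n) (𝓡 n) M M r

variable {n M}

/-- The standard subbasic neighbourhood of `f` of order `k` (Hirsch): the maps `g` that send `K`
into the domain of the chart `ψ` and whose local representative `ψ ∘ g ∘ φ⁻¹` has all derivatives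
of order at most `k` within `ε` of those of `ψ ∘ f ∘ φ⁻¹` at every point of `φ(K)`. -/
def subbasic {r : WithTop ℕ∞} (k : ℕ) (f : Diff n M r)
    (φ ψ : OpenPartialHomeomorph M (EuclideanSpace ℝ (Fin n))) (K : Set M) (ε : ℝ) :
    Set (Diff n M r) :=
  {g | MapsTo g K ψ.source ∧ ∀ j ≤ k, ∀ x ∈ K,
    ‖iteratedFDeriv ℝ j (ψ ∘ g ∘ φ.symm) (φ x) - iteratedFDeriv ℝ j (ψ ∘ f ∘ φ.symm) (φ x)‖ < ε}

variable (n M)

/-- The `C^r` topology on the `C^r` diffeomorphisms of `M`: it is generated by the sets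
`subbasic k f φ ψ K ε` with `k ≤ r` finite, `φ`, `ψ` charts of the maximal smooth atlas, `K` a
compact subset of the domain of `φ` sent by `f` into the domain of `ψ`, and `ε > 0`. -/
@[reducible] def crTopology (r : WithTop ℕ∞) : TopologicalSpace (Diff n M r) :=
  TopologicalSpace.generateFrom {U | ∃ (k : ℕ) (f : Diff n M r)
    (φ ψ : OpenPartialHomeomorph M (EuclideanSpace ℝ (Fin n))) (K : Set M) (ε : ℝ),
      (k : WithTop ℕ∞) ≤ r ∧ φ ∈ IsManifold.maximalAtlas (𝓡 n) ∞ M ∧
      ψ ∈ IsManifold.maximalAtlas (𝓡 n) ∞ M ∧ IsCompact K ∧ K ⊆ φ.source ∧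
      MapsTo f K ψ.source ∧ 0 < ε ∧ U = subbasic k f φ ψ K ε}

variable {n M}

/-- Topological conjugacy: `h ∘ f = g ∘ h` for a homeomorphism `h` of `M`. -/
def TopConj (f g : M → M) : Prop := ∃ h : M ≃ₜ M, h ∘ f = g ∘ h

/-- A `C^1` diffeomorphism is structurally stable if all `C^1` diffeomorphisms in some
neighbourhood of it for the `C^1` topology are topologically conjugate to it. -/
def StructStable (f : Diff n M 1) : Prop :=
  ∃ U ∈ @nhds _ (crTopology n M 1) f, ∀ g ∈ U, TopConj (g : M → M) f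

end Pool.Agent.H903Z.SS
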