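import Mathlib
import Pool.Agent.H903Z.SS.Defs
import Pool.Agent.H903Z.SS.Sel

set_option autoImplicit false

open Set Topology

namespace Pool.Agent.H903Z.SS

variable {M : Type} [TopologicalSpace M]

lemma TopConj.refl (f : M → M) : TopConj f f := ⟨Homeomorph.refl M, rfl⟩

lemma TopConj.symm {f g : M → M} (h : TopConj f g) : TopConj g f := by
  obtain ⟨h, e⟩ := h
  refine ⟨h.symm, funext fun x => ?_⟩
  apply h.injective
  have := congrFun e (h.symm x)
  simpa using this.symm

lemma TopConj.trans {f g k : M → M} (h : TopConj f g) (h' : TopConj g k) : TopConj f k := by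
  obtain ⟨h, e⟩ := h
  obtain ⟨h', e'⟩ := h'
  refine ⟨h.trans h', funext fun x => ?_⟩
  have h1 := congrFun e x
  have h2 := congrFun e' (h x)
  simp only [Function.comp_apply, Homeomorph.trans_apply] at *
  rw [h1, h2]

/-- pairs of mutually inverse continuous maps -/
def Pairs (M : Type) [TopologicalSpace M] : Set (C(M, M) × C(M, M)) :=
  {p | p.1.comp p.2 = ContinuousMap.id M ∧ p.2.comp p.1 = ContinuousMap.id M}

theorem measurableSet_class [CompactSpace M] [T2Space M] [SecondCountableTopology M]
    (g : C(M, M)) : @MeasurableSet _ (borel C(M, M)) {f : C(M, M) | TopConj f g} := by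
  letI : TopologicalSpace.MetrizableSpace M := inferInstance
  letI : MetricSpace M := TopologicalSpace.metrizableSpaceMetric M
  haveI : CompleteSpace M := inferInstance
  borelize C(M, M)
  have hcomp : Continuous fun p : C(M, M) × C(M, M) => p.1.comp p.2 :=
    ContinuousMap.continuous_comp'.comp continuous_swap
  have hcl : IsClosed (Pairs M) :=
    (isClosed_eq hcomp continuous_const).inter
      (isClosed_eq (hcomp.comp continuous_swap) continuous_const)
  haveI : PolishSpace (Pairs M) := hcl.polishSpace
  let φ : Pairs M → C(M, M) := fun p => p.1.2.comp (g.comp p.1.1)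
  have hφ : Continuous φ := by
    have h1 : Continuous fun p : Pairs M => g.comp p.1.1 :=
      hcomp.comp (continuous_const.prodMk (continuous_fst.comp continuous_subtype_val))
    exact hcomp.comp ((continuous_snd.comp continuous_subtype_val).prodMk h1)
  have hrange : {f : C(M, M) | TopConj f g} = range φ := by
    ext f
    constructor
    · rintro ⟨h, e⟩
      refine ⟨⟨(⟨h, h.continuous⟩, ⟨h.symm, h.symm.continuous⟩), ?_, ?_⟩, ?_⟩
      · ext x; simp
      · ext x; simp
      · ext x
        have := congrFun e x
        simp only [Function.comp_apply] at this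
        simp [φ, ← this]
    · rintro ⟨⟨⟨a, b⟩, h1, h2⟩, rfl⟩
      have h1' : ∀ x, a (b x) = x := fun x => DFunLike.congr_fun h1 x
      have h2' : ∀ x, b (a x) = x := fun x => DFunLike.congr_fun h2 x
      refine ⟨⟨⟨a, b, h2', h1'⟩, a.continuous, b.continuous⟩, funext fun x => ?_⟩
      exact h1' _
  rw [hrange]
  refine measurableSet_range φ hφ fun U hU => ?_
  rw [isOpen_iff_mem_nhds]
  rintro ⟨⟨c, d⟩, hc, hd⟩ ⟨⟨⟨a, b⟩, h1, h2⟩, hab, e⟩
  have h1' : ∀ x, a (b x) = x := fun x => DFunLike.congr_fun h1 x
  have h2' : ∀ x, b (a x) = x := fun x => DFunLike.congr_fun h2 x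
  have hc' : ∀ x, c (d x) = x := fun x => DFunLike.congr_fun hc x
  have hd' : ∀ x, d (c x) = x := fun x => DFunLike.congr_fun hd x
  have e' : ∀ x, b (g (a x)) = d (g (c x)) := fun x => DFunLike.congr_fun e x
  let R : Pairs M → Pairs M := fun p =>
    ⟨((a.comp d).comp p.1.1, p.1.2.comp (c.comp b)), by
      obtain ⟨⟨p, q⟩, hp, hq⟩ := p
      have hp' : ∀ x, p (q x) = x := fun x => DFunLike.congr_fun hp x
      have hq' : ∀ x, q (p x) = x := fun x => DFunLike.congr_fun hq x
      constructor
      · ext x; simp [hp', hd', h1']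
      · ext x; simp [hq', hc', h2']⟩
  have hR : Continuous R := by
    refine Continuous.subtype_mk (Continuous.prodMk ?_ ?_) _
    · exact hcomp.comp (continuous_const.prodMk (continuous_fst.comp continuous_subtype_val))
    · exact hcomp.comp ((continuous_snd.comp continuous_subtype_val).prodMk continuous_const)
  have hRφ : ∀ p, φ (R p) = φ p := by
    intro p
    ext x
    simp [φ, R, e', hc']
  have hRc : R ⟨(c, d), hc, hd⟩ = ⟨(a, b), h1, h2⟩ := by
    apply Subtype.ext
    apply Prod.ext
    · ext x; simp [R, hd']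
    · ext x; simp [R, hd']
  refine Filter.mem_of_superset ((hU.preimage hR).mem_nhds (by rw [mem_preimage, hRc]; exact hab)) ?_
  intro p hp
  exact ⟨R p, hp, hRφ p⟩

end Pool.Agent.H903Z.SS
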