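import Mathlib
import Pool.Agent.H903Z.SS.Defs

set_option autoImplicit false

open Set Topology Filter
open scoped Manifold ContDiff

namespace Pool.Agent.H903Z.SS

variable {n : ℕ} {M : Type} [TopologicalSpace M] [ChartedSpace (EuclideanSpace ℝ (Fin n)) M]
  [IsManifold (𝓡 n) ∞ M]

abbrev Ec (n : ℕ) : Type := EuclideanSpace ℝ (Fin n)

lemma continuousOn_tangentMap_open {N : Type} [TopologicalSpace N] [ChartedSpace (Ec n) N]
    [IsManifold (𝓡 n) 1 N] {N' : Type} [TopologicalSpace N'] [ChartedSpace (Ec n) N']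
    [IsManifold (𝓡 n) 1 N'] {f : N → N'} {s : Set N} (hs : IsOpen s)
    (hf : ContMDiffOn (𝓡 n) (𝓡 n) 1 f s) :
    ContinuousOn (tangentMap (𝓡 n) (𝓡 n) f) {p | p.1 ∈ s} := by
  refine (hf.continuousOn_tangentMapWithin le_rfl hs.uniqueMDiffOn).congr fun p hp => ?_
  exact (tangentMapWithin_eq_tangentMap (hs.uniqueMDiffWithinAt hp)
    ((hf.contMDiffAt (hs.mem_nhds hp)).mdifferentiableAt one_ne_zero)).symm

section param
variable {Y : Type} [TopologicalSpace Y] (Φ : Y → Diff n M 1)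
  (hΦ : Continuous fun q : Y × TangentBundle (𝓡 n) M => tangentMap (𝓡 n) (𝓡 n) (Φ q.1) q.2)
include hΦ

lemma cont_eval : Continuous fun q : Y × M => Φ q.1 q.2 := by
  have h0 : Continuous (Bundle.zeroSection (Ec n) (TangentSpace (𝓡 n) (M := M))) :=
    (Bundle.contMDiff_zeroSection (IB := 𝓡 n) (n := 0) ℝ (TangentSpace (𝓡 n) (M := M))).continuous
  exact (FiberBundle.continuous_proj (Ec n) (TangentSpace (𝓡 n) (M := M))).comp
    (hΦ.comp (continuous_fst.prodMk (h0.comp continuous_snd)))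

lemma contOn_fderiv {φ ψ : OpenPartialHomeomorph M (Ec n)}
    (hφ : φ ∈ IsManifold.maximalAtlas (𝓡 n) ∞ M) (hψ : ψ ∈ IsManifold.maximalAtlas (𝓡 n) ∞ M) :
    ContinuousOn (fun q : Y × M => fderiv ℝ (ψ ∘ Φ q.1 ∘ φ.symm) (φ q.2))
      {q | q.2 ∈ φ.source ∧ Φ q.1 q.2 ∈ ψ.source} := by
  have hφ1 : ContMDiffOn (𝓡 n) (𝓡 n) 1 φ.symm φ.target :=
    (contMDiffOn_symm_of_mem_maximalAtlas hφ).of_le (by exact_mod_cast le_top)
  have hψ1 : ContMDiffOn (𝓡 n) (𝓡 n) 1 ψ ψ.source :=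
    (contMDiffOn_of_mem_maximalAtlas hψ).of_le (by exact_mod_cast le_top)
  rw [continuousOn_clm_apply]
  intro v
  let a : M → TangentBundle (𝓡 n) (Ec n) := fun x =>
    (tangentBundleModelSpaceHomeomorph (𝓡 n)).symm (φ x, v)
  have ha : ContinuousOn a φ.source :=
    (tangentBundleModelSpaceHomeomorph (𝓡 n)).symm.continuous.comp_continuousOn
      (φ.continuousOn.prodMk continuousOn_const)
  have hb : ContinuousOn (fun x => tangentMap (𝓡 n) (𝓡 n) φ.symm (a x)) φ.source :=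
    (continuousOn_tangentMap_open φ.open_target hφ1).comp ha fun x hx => φ.map_source hx
  have hc : ContinuousOn (fun q : Y × M =>
      tangentMap (𝓡 n) (𝓡 n) (Φ q.1) (tangentMap (𝓡 n) (𝓡 n) φ.symm (a q.2)))
      {q | q.2 ∈ φ.source ∧ Φ q.1 q.2 ∈ ψ.source} :=
    hΦ.comp_continuousOn (continuousOn_fst.prodMk (hb.comp continuousOn_snd fun q hq => hq.1))
  have hd : ContinuousOn (fun q : Y × M => tangentMap (𝓡 n) (𝓡 n) ψ
      (tangentMap (𝓡 n) (𝓡 n) (Φ q.1) (tangentMap (𝓡 n) (𝓡 n) φ.symm (a q.2))))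
      {q | q.2 ∈ φ.source ∧ Φ q.1 q.2 ∈ ψ.source} := by
    refine (continuousOn_tangentMap_open ψ.open_source hψ1).comp hc fun q hq => ?_
    show Φ q.1 (φ.symm (φ q.2)) ∈ ψ.source
    rw [φ.left_inv hq.1]
    exact hq.2
  have he := (contMDiff_snd_tangentBundle_modelSpace (Ec n) (𝓡 n) (n := 0)).continuous.comp_continuousOn hd
  refine he.congr fun q hq => ?_
  have h1 : MDifferentiableAt (𝓡 n) (𝓡 n) φ.symm (φ q.2) :=
    (hφ1.contMDiffAt (φ.open_target.mem_nhds (φ.map_source hq.1))).mdifferentiableAt one_ne_zero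
  have h2 : MDifferentiableAt (𝓡 n) (𝓡 n) (Φ q.1) (φ.symm (φ q.2)) :=
    ((Φ q.1).contMDiff _).mdifferentiableAt one_ne_zero
  have h3 : MDifferentiableAt (𝓡 n) (𝓡 n) ψ ((Φ q.1 ∘ φ.symm) (φ q.2)) := by
    refine (hψ1.contMDiffAt (ψ.open_source.mem_nhds ?_)).mdifferentiableAt one_ne_zero
    show Φ q.1 (φ.symm (φ q.2)) ∈ ψ.source
    rw [φ.left_inv hq.1]
    exact hq.2
  show fderiv ℝ (ψ ∘ Φ q.1 ∘ φ.symm) (φ q.2) v = _
  rw [← mfderiv_eq_fderiv, mfderiv_comp _ h3 (h2.comp _ h1), mfderiv_comp _ h2 h1]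
  rfl

lemma contOn_iter {φ ψ : OpenPartialHomeomorph M (Ec n)}
    (hφ : φ ∈ IsManifold.maximalAtlas (𝓡 n) ∞ M) (hψ : ψ ∈ IsManifold.maximalAtlas (𝓡 n) ∞ M)
    {j : ℕ} (hj : j ≤ 1) :
    ContinuousOn (fun q : Y × M => iteratedFDeriv ℝ j (ψ ∘ Φ q.1 ∘ φ.symm) (φ q.2))
      {q | q.2 ∈ φ.source ∧ Φ q.1 q.2 ∈ ψ.source} := by
  interval_cases j
  · have h1 : ContinuousOn (fun q : Y × M => ψ (Φ q.1 q.2))
        {q | q.2 ∈ φ.source ∧ Φ q.1 q.2 ∈ ψ.source} :=
      ψ.continuousOn.comp (cont_eval Φ hΦ).continuousOn fun q hq => hq.2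
    refine ((continuousMultilinearCurryFin0 ℝ (Ec n) (Ec n)).symm.continuous.comp_continuousOn
      h1).congr fun q hq => ?_
    simp only [iteratedFDeriv_zero_eq_comp, Function.comp_apply, φ.left_inv hq.1]
  · refine ((continuousMultilinearCurryFin1 ℝ (Ec n) (Ec n)).symm.continuous.comp_continuousOn
      (contOn_fderiv Φ hΦ hφ hψ)).congr fun q _ => ?_
    ext m : 1
    simp

lemma isOpen_dom (φ ψ : OpenPartialHomeomorph M (Ec n)) :
    IsOpen {q : Y × M | q.2 ∈ φ.source ∧ Φ q.1 q.2 ∈ ψ.source} :=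
  (φ.open_source.preimage continuous_snd).inter (ψ.open_source.preimage (cont_eval Φ hΦ))

lemma isOpen_pre {φ ψ : OpenPartialHomeomorph M (Ec n)}
    (hφ : φ ∈ IsManifold.maximalAtlas (𝓡 n) ∞ M) (hψ : ψ ∈ IsManifold.maximalAtlas (𝓡 n) ∞ M)
    {k : ℕ} (hk : k ≤ 1) (f : Diff n M 1) {K : Set M} (hK : IsCompact K) (hKφ : K ⊆ φ.source)
    (hf : MapsTo f K ψ.source) (ε : ℝ) : IsOpen (Φ ⁻¹' subbasic k f φ ψ K ε) := by
  have hF : Continuous fun q : Y × TangentBundle (𝓡 n) M =>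
      tangentMap (𝓡 n) (𝓡 n) ((fun _ : Y => f) q.1) q.2 :=
    (f.contMDiff.continuous_tangentMap le_rfl).comp continuous_snd
  rw [isOpen_iff_mem_nhds]
  intro y hy
  have key : ∀ᶠ z in 𝓝 y, ∀ x ∈ K, Φ z x ∈ ψ.source ∧ ∀ j ∈ Finset.range (k + 1),
      ‖iteratedFDeriv ℝ j (ψ ∘ Φ z ∘ φ.symm) (φ x) -
        iteratedFDeriv ℝ j (ψ ∘ f ∘ φ.symm) (φ x)‖ < ε := by
    apply hK.eventually_forall_of_forall_eventually
    intro x hx
    have hD := (isOpen_dom Φ hΦ φ ψ).mem_nhds (show (y, x) ∈ _ from ⟨hKφ hx, hy.1 hx⟩)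
    have hD' := (isOpen_dom (fun _ : Y => f) hF φ ψ).mem_nhds
      (show (y, x) ∈ _ from ⟨hKφ hx, hf hx⟩)
    refine Eventually.and (mem_of_superset hD fun q hq => hq.2) ?_
    rw [Finset.eventually_all]
    intro j hj
    have hj' : j ≤ k := Nat.lt_succ_iff.1 (Finset.mem_range.1 hj)
    have h1 := (contOn_iter Φ hΦ hφ hψ (hj'.trans hk)).continuousAt hD
    have h2 := (contOn_iter (fun _ : Y => f) hF hφ hψ (hj'.trans hk)).continuousAt hD'
    exact (h1.sub h2).norm.eventually_lt continuousAt_const (hy.2 j hj' x hx)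
  filter_upwards [key] with z hz
  exact ⟨fun x hx => (hz x hx).1, fun j hj x hx =>
    (hz x hx).2 j (Finset.mem_range.2 (Nat.lt_succ_of_le hj))⟩

end param

/-- There is a second countable topology finer than the `C^1` topology. -/
lemma exists_finer [CompactSpace M] : ∃ τ : TopologicalSpace (Diff n M 1),
    @SecondCountableTopology _ τ ∧ τ ≤ crTopology n M 1 := by
  haveI : SecondCountableTopology (ModelProd (Ec n) (Ec n)) :=
    inferInstanceAs (SecondCountableTopology (Ec n × Ec n))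
  haveI : LocallyCompactSpace (ModelProd (Ec n) (Ec n)) :=
    inferInstanceAs (LocallyCompactSpace (Ec n × Ec n))
  haveI : SecondCountableTopology (TangentBundle (𝓡 n) M) := by
    obtain ⟨s, hsc, hsU⟩ : ∃ s : Set M, s.Countable ∧
        ⋃ (x) (_ : x ∈ s), (chartAt (Ec n) x).source = univ :=
      countable_cover_nhds_of_sigmaCompact fun x : M ↦ chart_source_mem_nhds (Ec n) x
    refine ChartedSpace.secondCountable_of_countable_cover (ModelProd (Ec n) (Ec n))
      (s := (fun x : M => (⟨x, 0⟩ : TangentBundle (𝓡 n) M)) '' s) ?_ (hsc.image _)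
    rw [eq_univ_iff_forall]
    intro p
    have hp : p.1 ∈ ⋃ (x) (_ : x ∈ s), (chartAt (Ec n) x).source := hsU ▸ mem_univ _
    simp only [mem_iUnion] at hp ⊢
    obtain ⟨x, hx, hpx⟩ := hp
    exact ⟨_, ⟨x, hx, rfl⟩, (TangentBundle.mem_chart_source_iff _ _).2 hpx⟩
  haveI : LocallyCompactSpace (TangentBundle (𝓡 n) M) :=
    ChartedSpace.locallyCompactSpace (ModelProd (Ec n) (Ec n)) _
  let T : Diff n M 1 → C(TangentBundle (𝓡 n) M, TangentBundle (𝓡 n) M) := fun g =>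
    ⟨tangentMap (𝓡 n) (𝓡 n) g, g.contMDiff.continuous_tangentMap le_rfl⟩
  let τ : TopologicalSpace (Diff n M 1) := TopologicalSpace.induced T inferInstance
  refine ⟨τ, TopologicalSpace.secondCountableTopology_induced _ _ T, ?_⟩
  have hT : Continuous T := continuous_induced_dom
  have hΦ : Continuous fun q : Diff n M 1 × TangentBundle (𝓡 n) M =>
      tangentMap (𝓡 n) (𝓡 n) (id q.1 : Diff n M 1) q.2 :=
    continuous_eval.comp ((hT.comp continuous_fst).prodMk continuous_snd)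
  apply le_generateFrom
  rintro U ⟨k, f, φ, ψ, K, ε, hk, hφ, hψ, hK, hKφ, hf, -, rfl⟩
  exact isOpen_pre id hΦ hφ hψ (by exact_mod_cast hk) f hK hKφ hf ε

/-- The `C^r` topology is finer than the compact-open topology. -/
lemma continuous_toC (r : WithTop ℕ∞) :
    @Continuous _ _ (crTopology n M r) _
      (fun f : Diff n M r => (⟨f, f.continuous⟩ : C(M, M))) := by
  letI := crTopology n M r
  haveI : LocallyCompactSpace M := ChartedSpace.locallyCompactSpace (Ec n) M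
  rw [ContinuousMap.continuous_compactOpen]
  intro K hK U hU
  rw [isOpen_iff_mem_nhds]
  intro g hg
  have key : ∀ x ∈ K, ∃ L ∈ 𝓝 x, ∀ᶠ f : Diff n M r in 𝓝 g, MapsTo f L U := by
    intro x hx
    let φ := chartAt (Ec n) x
    let ψ := (chartAt (Ec n) (g x)).restr U
    have hψs : ψ.source = (chartAt (Ec n) (g x)).source ∩ U :=
      OpenPartialHomeomorph.restr_source' _ _ hU
    have hV : φ.source ∩ g ⁻¹' ψ.source ∈ 𝓝 x := by
      refine inter_mem (chart_source_mem_nhds _ x) (g.continuous.continuousAt.preimage_mem_nhds ?_)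
      refine ψ.open_source.mem_nhds ?_
      rw [hψs]
      exact ⟨mem_chart_source _ _, hg hx⟩
    obtain ⟨L, hL, hLV, hLc⟩ := local_compact_nhds hV
    refine ⟨L, hL, ?_⟩
    have hopen : IsOpen (subbasic 0 g φ ψ L 1) :=
      TopologicalSpace.isOpen_generateFrom_of_mem ⟨0, g, φ, ψ, L, 1, by simp,
        IsManifold.chart_mem_maximalAtlas x,
        restr_mem_maximalAtlas _ (IsManifold.chart_mem_maximalAtlas (g x)) hU,
        hLc, fun y hy => (hLV hy).1, fun y hy => (hLV hy).2, one_pos, rfl⟩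
    have hmem : g ∈ subbasic 0 g φ ψ L 1 := ⟨fun y hy => (hLV hy).2, fun j _ y _ => by simp⟩
    filter_upwards [hopen.mem_nhds hmem] with f hf y hy
    have := hf.1 hy
    rw [hψs] at this
    exact this.2
  have : ∀ᶠ f : Diff n M r in 𝓝 g, ∀ x ∈ K, f x ∈ U := by
    apply hK.eventually_forall_of_forall_eventually
    intro x hx
    obtain ⟨L, hL, h⟩ := key x hx
    rw [nhds_prod_eq]
    filter_upwards [prod_mem_prod h hL] with q hq
    exact hq.1 hq.2
  exact this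

end Pool.Agent.H903Z.SS
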