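import Mathlib
import Pool.Agent.H903Z.SS.Defs
import Pool.Agent.H903Z.SS.Conj
import Pool.Agent.H903Z.SS.Top

set_option autoImplicit false

open Set Topology Filter
open scoped Manifold ContDiff

namespace Pool.Agent.H903Z.SS

theorem main (n : ℕ) (M : Type) [TopologicalSpace M] [T2Space M] [CompactSpace M]
    [ChartedSpace (EuclideanSpace ℝ (Fin n)) M] [IsManifold (𝓡 n) ∞ M] (r : WithTop ℕ∞) :
    @MeasurableSet _ (@borel _ (crTopology n M ∞))
      {f : Diff n M ∞ | ∃ g : Diff n M 1, ContMDiff (𝓡 n) (𝓡 n) r g ∧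
        ContMDiff (𝓡 n) (𝓡 n) r g.symm ∧ StructStable g ∧ TopConj (f : M → M) g} := by
  haveI : SecondCountableTopology M := ChartedSpace.secondCountable_of_sigmaCompact (Ec n) M
  obtain ⟨τ, hτ, hle⟩ := exists_finer (n := n) (M := M)
  obtain ⟨D, hDc, hDd⟩ := @TopologicalSpace.exists_countable_dense (Diff n M 1) τ
    (@TopologicalSpace.SecondCountableTopology.to_separableSpace _ τ hτ)
  let P : Diff n M 1 → Prop := fun d => ∃ g : Diff n M 1, ContMDiff (𝓡 n) (𝓡 n) r g ∧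
    ContMDiff (𝓡 n) (𝓡 n) r g.symm ∧ StructStable g ∧ TopConj (d : M → M) g
  have hS : {f : Diff n M ∞ | ∃ g : Diff n M 1, ContMDiff (𝓡 n) (𝓡 n) r g ∧
        ContMDiff (𝓡 n) (𝓡 n) r g.symm ∧ StructStable g ∧ TopConj (f : M → M) g} =
      ⋃ d ∈ {d ∈ D | P d}, (fun f : Diff n M ∞ => (⟨f, f.continuous⟩ : C(M, M))) ⁻¹'
        {f : C(M, M) | TopConj f (⟨d, d.continuous⟩ : C(M, M))} := by
    ext f
    simp only [mem_iUnion]
    constructor
    · rintro ⟨g, h1, h2, ⟨U, hU, hUg⟩, h4⟩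
      have hU' : U ∈ @nhds _ τ g := nhds_mono hle hU
      obtain ⟨d, hdD, hdU⟩ := @Dense.inter_nhds_nonempty _ τ _ _ _ hDd hU'
      exact ⟨d, ⟨hdD, g, h1, h2, ⟨U, hU, hUg⟩, hUg d hdU⟩, h4.trans (hUg d hdU).symm⟩
    · rintro ⟨d, ⟨-, g, h1, h2, h3, h4⟩, h5⟩
      exact ⟨g, h1, h2, h3, TopConj.trans h5 h4⟩
  rw [hS]
  letI := crTopology n M ∞
  letI : MeasurableSpace (Diff n M ∞) := borel _
  haveI : BorelSpace (Diff n M ∞) := ⟨rfl⟩
  letI : MeasurableSpace C(M, M) := borel _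
  haveI : BorelSpace C(M, M) := ⟨rfl⟩
  refine MeasurableSet.biUnion (hDc.mono fun d hd => hd.1) fun d _ => ?_
  exact (continuous_toC (n := n) (M := M) ∞).measurable (measurableSet_class _)

end Pool.Agent.H903Z.SS
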